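import Mathlib
import Pool.Agent.TH999.GCR.Rate
import Pool.Agent.H399R2.Window

/-!
# The gcd recursion for Goldbach pairs: primes or `g_N ≤ (2/3 + o(1)) N`

The potential `3 n + 2 a_n` grows by `1` per step between jumps, and a jump by `g` lowers it by
`2 (g - 1)`; the waiting time for a jump divisible by an odd prime `p` is at most `2 p`. A new
level `3 + 2 a_1 + 2 j` is passed only at a jump by a prime `g = p`, after a waiting time
`> 2 (p - 1)`, and then `j` lies in one of two residue classes modulo `p`. By a sieve most levels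
cost a long time, so that the potential cannot grow linearly.
-/

set_option autoImplicit false

namespace Pool.Agent.Results.MP_b5e119_nt.TwoThirds

open Finset Pool.Agent.H399R2 Pool.Agent.TH999.GCR

/-- the second argument of the gcd -/
def V (N : ℕ) (n : ℕ) : ℤ := (N : ℤ) - (-1) ^ n * ((N : ℤ) - n)

lemma V_even (N : ℕ) {n : ℕ} (hn : n % 2 = 0) : V N n = n := by
  have : Even n := Nat.even_iff.mpr hn
  simp only [V]; rw [this.neg_one_pow]; ring

lemma V_odd (N : ℕ) {n : ℕ} (hn : n % 2 = 1) : V N n = 2 * N - n := by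
  have : Odd n := Nat.odd_iff.mpr hn
  simp only [V]; rw [this.neg_one_pow]; ring

/-- the segment of the recursion from `1` to its zero is good -/
lemma good (N : ℕ) (hN : 3 ≤ N) (a : ℕ → ℤ) (ha1 : a 1 = (N : ℤ) - 2)
    (ha : ∀ n : ℕ, 2 ≤ n → a n = a (n - 1) -
        ((Int.gcd (a (n - 1)) ((N : ℤ) - (-1) ^ n * ((N : ℤ) - n)) : ℕ) : ℤ))
    (f : ℕ) (hf : IsLeast {n : ℕ | 2 ≤ n ∧ a n = 0} f) :
    ∃ (per : ℕ → ℕ) (R : ℕ → Finset ℕ), Good (fun k => (a k).natAbs) (V N) 1 f 2 2 per R := by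
  obtain ⟨⟨hf1, haf⟩, hmin⟩ := hf
  have hmin' : ∀ k, 1 ≤ k → k < f → a k ≠ 0 := by
    intro k hk1 hk2 hk3
    rcases Nat.lt_or_ge k 2 with h | h
    · have : k = 1 := by omega
      subst this
      rw [ha1] at hk3
      omega
    · have := hmin ⟨h, hk3⟩
      omega
  have hnn : ∀ k, 1 ≤ k → k ≤ f → 0 ≤ a k := by
    intro k hk
    induction k, hk using Nat.le_induction with
    | base => intro _; rw [ha1]; omega
    | succ k hk ih =>
      intro hkf
      have h1 := ih (by omega)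
      have hpos : 0 < a k := lt_of_le_of_ne h1 (Ne.symm (hmin' k hk (by omega)))
      rw [ha (k + 1) (by omega), Nat.add_sub_cancel]
      have := Int.le_of_dvd hpos (Int.gcd_dvd_left (a := a k)
        (b := (N : ℤ) - (-1) ^ (k + 1) * ((N : ℤ) - ((k + 1 : ℕ) : ℤ))))
      linarith
  have hseg : Seg (fun k => (a k).natAbs) (V N) 1 f := by
    refine ⟨by omega, ?_, ?_⟩
    · intro n hn1 hn2
      have h1 := ha (n + 1) (by omega)
      rw [Nat.add_sub_cancel] at h1
      have h2 : (((a n).natAbs : ℕ) : ℤ) = a n := Int.natAbs_of_nonneg (hnn n hn1 (by omega))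
      have h3 : (((a (n + 1)).natAbs : ℕ) : ℤ) = a (n + 1) :=
        Int.natAbs_of_nonneg (hnn (n + 1) (by omega) (by omega))
      have : ((((a (n + 1)).natAbs + Int.gcd (((a n).natAbs : ℕ) : ℤ) (V N (n + 1)) : ℕ)) : ℤ)
          = (((a n).natAbs : ℕ) : ℤ) := by
        rw [Nat.cast_add, h2, h3, h1]
        simp only [V]
        ring
      exact_mod_cast this
    · intro n hn1 hn2
      exact Int.natAbs_pos.mpr (hmin' n hn1 hn2)
  classical
  set c : ℕ := (2 + 1) * 1 + 2 * (a 1).natAbs with hc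
  set z : ℕ → ℤ := fun i => if i = 0 then 6 * (N : ℤ) else 0 with hz
  refine ⟨fun p => if p = 2 then 2 else 2 * p,
    fun p => if p = 2 then ∅ else (range 2).biUnion
      (fun i => (range p).filter (fun j : ℕ => (p : ℤ) ∣ 2 * (j : ℤ) + i + c - z i)),
      hseg, ?_, ?_, ?_, ?_, ?_⟩
  · intro p hp
    have := hp.pos
    split_ifs <;> omega
  · intro p hp
    split_ifs with h
    · rw [h]
    · exact Dvd.intro_left _ rfl
  · intro p hp n hn
    have hp2 := hp.two_le
    split_ifs with h3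
    · subst h3
      rcases Nat.mod_two_eq_zero_or_one n with h2 | h2
      · rw [V_even N h2, V_even N (show (n + 2) % 2 = 0 by omega)]
        omega
      · rw [V_odd N h2, V_odd N (show (n + 2) % 2 = 1 by omega)]
        omega
    · rcases Nat.mod_two_eq_zero_or_one n with h2 | h2
      · rw [V_even N h2, V_even N (show (n + 2 * p) % 2 = 0 by omega)]
        have e1 : ((n + 2 * p : ℕ) : ℤ) = (n : ℤ) + (p : ℤ) * 2 := by push_cast; ring
        rw [e1]
        exact (Int.dvd_add_left (Dvd.intro _ rfl)).mp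
      · rw [V_odd N h2, V_odd N (show (n + 2 * p) % 2 = 1 by omega)]
        have e1 : 2 * (N : ℤ) - ((n + 2 * p : ℕ) : ℤ) = (2 * (N : ℤ) - n) + (p : ℤ) * (-2) := by
          push_cast; ring
        rw [e1]
        exact (Int.dvd_add_left (Dvd.intro _ rfl)).mp
  · intro p hp
    have hp2 := hp.two_le
    by_cases h3 : p = 2
    · left
      rw [if_pos h3, h3]
    · right
      rw [if_neg h3, if_neg h3]
      refine ⟨le_rfl, ?_⟩
      intro n hn hV j i hi hmod hmod2
      rw [mem_biUnion]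
      refine ⟨i, mem_range.mpr hi, ?_⟩
      rw [mem_filter, mem_range]
      refine ⟨Nat.mod_lt _ hp.pos, ?_⟩
      have h5 : (p : ℤ) ∣ ((((2 + 1) * 1 + 2 * (a 1).natAbs + 2 * j + i : ℕ)) : ℤ) -
          (((2 + 1) * n : ℕ) : ℤ) := (Nat.modEq_iff_dvd).mp hmod
      have hc' : ((((2 + 1) * 1 + 2 * (a 1).natAbs + 2 * j + i : ℕ)) : ℤ) = c + 2 * j + i := by
        rw [hc]; push_cast; ring
      rw [hc'] at h5
      have h6 : (p : ℤ) ∣ 3 * (n : ℤ) - z i := by
        have hmod2' : n % 2 = (1 + i) % 2 := hmod2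
        have h7 : i = 0 ∨ i = 1 := by omega
        rcases h7 with rfl | rfl
        · rw [V_odd N (by omega)] at hV
          have e1 : 3 * (n : ℤ) - z 0 = (2 * (N : ℤ) - n) * (-3) := by
            simp only [hz, if_true]; ring
          rw [e1]
          exact Dvd.dvd.mul_right hV _
        · rw [V_even N (by omega)] at hV
          have e1 : 3 * (n : ℤ) - z 1 = (n : ℤ) * 3 := by
            simp [hz]; ring
          rw [e1]
          exact Dvd.dvd.mul_right hV _
      have h8 : (p : ℤ) ∣ (j : ℤ) - ((j % p : ℕ) : ℤ) := by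
        have := (Nat.modEq_iff_dvd).mp (Nat.mod_modEq j p)
        exact this
      have e2 : 2 * ((j % p : ℕ) : ℤ) + i + c - z i =
          ((c + 2 * j + i : ℤ) - (((2 + 1) * n : ℕ) : ℤ)) + (3 * (n : ℤ) - z i) +
            ((j : ℤ) - ((j % p : ℕ) : ℤ)) * (-2) := by
        push_cast; ring
      rw [e2]
      exact dvd_add (dvd_add h5 h6) (Dvd.dvd.mul_right h8 _)
  · intro p hp
    have hp2 := hp.two_le
    by_cases h3 : p = 2
    · rw [if_pos h3]
      simp
    · rw [if_neg h3]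
      have h4 : ww 2 p = 2 := by
        unfold ww
        rw [if_neg (by omega)]
      rw [h4]
      have h5 := Finset.card_biUnion_le_card_mul (range 2)
        (fun i => (range p).filter (fun j : ℕ => (p : ℤ) ∣ 2 * (j : ℤ) + i + c - z i)) 1 (by
          intro i _
          rw [Finset.card_le_one]
          intro j hj j' hj'
          rw [mem_filter, mem_range] at hj hj'
          have h1 : (p : ℤ) ∣ 2 * ((j : ℤ) - j') := by
            have h2 := dvd_sub hj.2 hj'.2
            have e1 : 2 * (j : ℤ) + i + c - z i - (2 * (j' : ℤ) + i + c - z i) =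
                2 * ((j : ℤ) - j') := by ring
            rwa [e1] at h2
          have hcop : IsCoprime (p : ℤ) 2 := by
            have : Nat.Coprime p 2 := by
              rw [Nat.coprime_primes hp Nat.prime_two]; exact h3
            exact_mod_cast (Nat.isCoprime_iff_coprime.mpr this)
          have h6 := hcop.dvd_of_dvd_mul_left h1
          have h7 : j' ≡ j [MOD p] := (Nat.modEq_iff_dvd).mpr h6
          have h8 : j' % p = j % p := h7
          rw [Nat.mod_eq_of_lt hj.1, Nat.mod_eq_of_lt hj'.1] at h8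
          exact h8.symm)
      rw [card_range] at h5
      exact h5

/-- a prime factor of `f + 1` or `2 N - f - 1` bounds the length of the final run -/
lemma detect (N : ℕ) (a : ℕ → ℤ) (f l : ℕ) (hl1 : 1 ≤ l) (hlf : l ≤ f) (hfN : f + 1 ≤ N)
    (htr : ∀ i, l ≤ i → i < f → Int.gcd (((a i).natAbs : ℕ) : ℤ) (V N (i + 1)) = 1)
    (hrun : ∀ k, l ≤ k → k ≤ f → (a k).natAbs = f - k) :
    ∀ (p : ℕ), p.Prime → (p ∣ f + 1 ∨ p ∣ 2 * N - f - 1) → f - l < 2 * p := by
  intro p hp hdvd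
  by_contra hcon
  push Not at hcon
  have hp2 := hp.two_le
  have suff : ∀ k, l ≤ k → k < f → p ∣ f - k → ¬ ((p : ℤ) ∣ V N (k + 1)) := by
    intro k hk1 hk2 hk3 hk4
    have h1 := htr k hk1 hk2
    have h2 := hrun k hk1 hk2.le
    have h8 : (p : ℤ) ∣ (Int.gcd (((a k).natAbs : ℕ) : ℤ) (V N (k + 1)) : ℤ) := by
      apply Int.dvd_coe_gcd _ hk4
      rw [h2]
      exact Int.natCast_dvd_natCast.mpr hk3
    rw [h1] at h8
    have h9 : p ∣ 1 := by exact_mod_cast h8
    exact hp.one_lt.ne' (Nat.dvd_one.mp h9)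
  by_cases h23 : p = 2
  · subst h23
    have h1 := suff (f - 2) (by omega) (by omega) (by omega)
    rcases Nat.mod_two_eq_zero_or_one (f - 2 + 1) with h2 | h2
    · rw [V_even N h2] at h1
      omega
    · rw [V_odd N h2] at h1
      omega
  have hcop : Nat.Coprime 2 p := by
    rw [Nat.coprime_primes Nat.prime_two hp]; omega
  rcases hdvd with hdvd | hdvd
  · obtain ⟨r, hr1, hr2⟩ := Nat.chineseRemainder hcop 0 (f + 1)
    obtain ⟨k, hk1, hk2, hk3⟩ := window (2 * p) (by omega) r f (by omega)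
    have h3 : k + 1 ≡ f + 1 [MOD p] := (hk3.of_dvd (Dvd.intro_left _ rfl)).trans hr2
    have h4 : k ≡ f [MOD p] := Nat.ModEq.add_right_cancel' 1 h3
    have h5 : p ∣ f - k := (Nat.modEq_iff_dvd' (by omega)).mp h4
    have h6 : k + 1 ≡ 0 [MOD 2] := (hk3.of_dvd (Dvd.intro _ rfl)).trans hr1
    apply suff k (by omega) hk2 h5
    rw [V_even N h6]
    exact Int.natCast_dvd_natCast.mpr ((Nat.ModEq.dvd_iff h3 dvd_rfl).mpr hdvd)
  · obtain ⟨r, hr1, hr2⟩ := Nat.chineseRemainder hcop 1 (f + 1)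
    obtain ⟨k, hk1, hk2, hk3⟩ := window (2 * p) (by omega) r f (by omega)
    have h3 : k + 1 ≡ f + 1 [MOD p] := (hk3.of_dvd (Dvd.intro_left _ rfl)).trans hr2
    have h4 : k ≡ f [MOD p] := Nat.ModEq.add_right_cancel' 1 h3
    have h5 : p ∣ f - k := (Nat.modEq_iff_dvd' (by omega)).mp h4
    have h6 : k + 1 ≡ 1 [MOD 2] := (hk3.of_dvd (Dvd.intro _ rfl)).trans hr1
    apply suff k (by omega) hk2 h5
    rw [V_odd N h6]
    have e1 : 2 * (N : ℤ) - ((k + 1 : ℕ) : ℤ) = ((2 * N - f - 1 : ℕ) : ℤ)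
        + ((f - k : ℕ) : ℤ) := by
      omega
    rw [e1]
    exact dvd_add (Int.natCast_dvd_natCast.mpr hdvd) (Int.natCast_dvd_natCast.mpr h5)

/-- the bound with an explicit rate -/
theorem rate :
    ∃ C : ℝ, 0 < C ∧ ∀ N : ℕ, 3 ≤ N → ∀ a : ℕ → ℤ, a 1 = (N : ℤ) - 2 →
      (∀ n : ℕ, 2 ≤ n → a n = a (n - 1) -
        ((Int.gcd (a (n - 1)) ((N : ℤ) - (-1) ^ n * ((N : ℤ) - n)) : ℕ) : ℤ)) →
      ∀ g : ℕ, IsLeast {n : ℕ | 2 ≤ n ∧ a n = 0} g →
        (Nat.Prime (g + 1) ∧ Nat.Prime (2 * N - g - 1)) ∨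
          (g : ℝ) ≤ 2 / 3 * N + C * (N / √(Real.log N)) := by
  obtain ⟨C₀, hC₀, hmain⟩ := main_rate 2 2 (by norm_num)
  refine ⟨(6 + C₀) / 3, by positivity, ?_⟩
  intro N hN a ha1 ha f hf
  obtain ⟨per, R, hgood⟩ := good N hN a ha1 ha f hf
  have hf1 : 2 ≤ f := hf.1.1
  have haf : a f = 0 := hf.1.2
  have hdec := decr hgood.seg f (by omega) le_rfl
  have hx1 : (((a 1).natAbs : ℕ) : ℤ) = N - 2 := by
    rw [ha1]; exact Int.natAbs_of_nonneg (by omega)
  have hxf : (a f).natAbs = 0 := by rw [haf]; rfl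
  simp only [hxf] at hdec
  have hfN : f + 1 ≤ N := by omega
  have hNr : (3 : ℝ) ≤ N := by exact_mod_cast hN
  have hfr : (f : ℝ) + 1 ≤ N := by exact_mod_cast hfN
  obtain ⟨l, hsl, hle, htr, hl⟩ := hmain _ _ 1 f per R hgood N hNr (by
    push_cast
    linarith)
  have hrun : ∀ k, l ≤ k → k ≤ f → (a k).natAbs = f - k := by
    intro k hk1 hk2
    have h1 := hgood.seg.run hsl le_rfl htr k hk1 hk2
    simp only [hxf] at h1
    omega
  have hdet := detect N a f l hsl hle hfN htr hrun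
  set Y := (N : ℝ) / √(Real.log N) with hY
  have hY1 : 1 ≤ Y := rate_ge_one hNr
  -- the inequality in terms of `f - l`
  have hx1n : (a 1).natAbs + 2 = N := by omega
  have hx1r : ((a 1).natAbs : ℝ) = N - 2 := by
    have : (((a 1).natAbs + 2 : ℕ) : ℝ) = N := by exact_mod_cast hx1n
    push_cast at this
    linarith
  have hxl : ((a l).natAbs : ℝ) = (f : ℝ) - l := by
    rw [hrun l le_rfl hle, Nat.cast_sub hle]
  simp only [hx1r, hxl] at hl
  push_cast at hl
  have key : ∀ p : ℕ, p.Prime → (p ∣ f + 1 ∨ p ∣ 2 * N - f - 1) →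
      p ≤ Nat.sqrt (2 * N - f - 1) → (f : ℝ) ≤ 2 / 3 * N + (6 + C₀) / 3 * Y := by
    intro p hp h1 h2
    have h3 := hdet p hp h1
    have h4 : (f : ℝ) - l ≤ 2 * Nat.sqrt (2 * N - f - 1) := by
      have : f ≤ l + 2 * Nat.sqrt (2 * N - f - 1) := by omega
      have h5 : (f : ℝ) ≤ ((l + 2 * Nat.sqrt (2 * N - f - 1) : ℕ) : ℝ) := by exact_mod_cast this
      push_cast at h5
      linarith
    have h5 : ((Nat.sqrt (2 * N - f - 1) : ℕ) : ℝ) ≤ √((2 * N - f - 1 : ℕ) : ℝ) :=
      Real.nat_sqrt_le_real_sqrt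
    have h6 : √((2 * N - f - 1 : ℕ) : ℝ) ≤ 3 * Y := by
      apply sqrt_le_rate hNr
      have : ((2 * N - f - 1 : ℕ) : ℝ) ≤ ((2 * N : ℕ) : ℝ) := by
        have : 2 * N - f - 1 ≤ 2 * N := by omega
        exact_mod_cast this
      push_cast at this
      linarith
    linarith
  by_cases hp1 : Nat.Prime (f + 1)
  · by_cases hp2 : Nat.Prime (2 * N - f - 1)
    · exact Or.inl ⟨hp1, hp2⟩
    · right
      apply key (Nat.minFac (2 * N - f - 1)) (Nat.minFac_prime (by omega))
        (Or.inr (Nat.minFac_dvd _))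
      rw [Nat.le_sqrt']
      exact (Nat.minFac_sq_le_self (by omega) hp2).trans (by omega)
  · right
    apply key (Nat.minFac (f + 1)) (Nat.minFac_prime (by omega)) (Or.inl (Nat.minFac_dvd _))
    rw [Nat.le_sqrt']
    exact (Nat.minFac_sq_le_self (by omega) hp1).trans (by omega)

/-- (1) There is a constant `C` such that for all `N ≥ 3`, either `g_N + 1` and `2N - g_N - 1` are
both prime or `g_N ≤ (2/3) N + C N / √(log N)`. (2) Hence for every `ε > 0` and all large `N` the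
two numbers are prime as soon as `g_N ≥ (2/3 + ε) N`. -/
theorem result :
    (∃ C : ℝ, 0 < C ∧ ∀ N : ℕ, 3 ≤ N → ∀ a : ℕ → ℤ, a 1 = (N : ℤ) - 2 →
      (∀ n : ℕ, 2 ≤ n → a n = a (n - 1) -
        ((Int.gcd (a (n - 1)) ((N : ℤ) - (-1) ^ n * ((N : ℤ) - n)) : ℕ) : ℤ)) →
      ∀ g : ℕ, IsLeast {n : ℕ | 2 ≤ n ∧ a n = 0} g →
        (Nat.Prime (g + 1) ∧ Nat.Prime (2 * N - g - 1)) ∨
          (g : ℝ) ≤ 2 / 3 * N + C * (N / √(Real.log N))) ∧
    (∀ ε : ℝ, 0 < ε → ∃ N₀ : ℕ, ∀ N : ℕ, N₀ ≤ N → ∀ a : ℕ → ℤ, a 1 = (N : ℤ) - 2 →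
      (∀ n : ℕ, 2 ≤ n → a n = a (n - 1) -
        ((Int.gcd (a (n - 1)) ((N : ℤ) - (-1) ^ n * ((N : ℤ) - n)) : ℕ) : ℤ)) →
      ∀ g : ℕ, IsLeast {n : ℕ | 2 ≤ n ∧ a n = 0} g → (2 / 3 + ε) * N ≤ g →
        Nat.Prime (g + 1) ∧ Nat.Prime (2 * N - g - 1)) := by
  obtain ⟨C, hC, h⟩ := rate
  refine ⟨⟨C, hC, h⟩, ?_⟩
  intro ε hε
  have hlim : Filter.Tendsto (fun N : ℕ => √(Real.log N)) Filter.atTop Filter.atTop :=
    Real.tendsto_sqrt_atTop.comp (Real.tendsto_log_atTop.comp tendsto_natCast_atTop_atTop)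
  obtain ⟨N₁, hN₁⟩ := (hlim.eventually_gt_atTop (C / ε)).exists_forall_of_atTop
  refine ⟨max N₁ 3, ?_⟩
  intro N hN a ha1 ha f hf hfN
  have hN3 : 3 ≤ N := (le_max_right _ _).trans hN
  rcases h N hN3 a ha1 ha f hf with h1 | h1
  · exact h1
  · exfalso
    have h2 := hN₁ N ((le_max_left _ _).trans hN)
    have hs0 : 0 < √(Real.log N) := lt_trans (by positivity) h2
    have hN0 : (0 : ℝ) < N := by
      have : 0 < N := by omega
      exact_mod_cast this
    have h3 : C * (N / √(Real.log N)) < ε * N := by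
      rw [mul_div_assoc', div_lt_iff₀ hs0]
      rw [div_lt_iff₀ hε] at h2
      nlinarith
    nlinarith

end Pool.Agent.Results.MP_b5e119_nt.TwoThirds
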